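import Pool.Agent.MP_bd94e8_al.H89.Spec

/-!
The enlargements of a problem exist.
-/

set_option autoImplicit false
set_option linter.unusedSectionVars false

namespace Pool.Agent.MP_bd94e8_al.H89

open Module Function

namespace Enl1A

variable {k F : Type} [Field k] [Field F] [Algebra k F] {Pt ι : Type} [Fintype Pt]
  [DecidableEq Pt] (P : Prob k F Pt ι Unit)

theorem in_zero (i j : ι) : P.In i j 0 := fun _ _ h => (h rfl).elim

theorem in_add {i j : ι} {a b : Matrix Pt Pt F} (ha : P.In i j a) (hb : P.In i j b) :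
    P.In i j (a + b) := fun q p h => by
  by_cases e : a q p = 0
  · exact hb q p (by simpa [e] using h)
  · exact ha q p e

theorem in_smul {i j : ι} {a : Matrix Pt Pt F} (c : F) (ha : P.In i j a) : P.In i j (c • a) :=
  fun q p h => ha q p fun e => h (by simp [e])

theorem in_mul {i j j' l : ι} {a b : Matrix Pt Pt F} (ha : P.In j' l a) (hb : P.In i j b) :
    P.In i l (a * b) := fun q p h => by
  rw [Matrix.mul_apply] at h
  obtain ⟨r, -, hr⟩ := Finset.exists_ne_zero_of_sum_ne_zero h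
  exact ⟨(hb r p (right_ne_zero_of_mul hr)).1, (ha q r (left_ne_zero_of_mul hr)).2⟩

theorem in_blk (i j : ι) (b : Matrix Pt Pt F) : P.In i j (P.blk i j b) :=
  fun _ _ h => (mask_ne h).1

theorem in_e (i : ι) : P.In i i (P.e i) := fun q p h => by
  have h1 : P.vt p = i := by
    by_contra e
    exact h (P.e_neg q e)
  have h2 : q = p := by
    by_contra e
    exact h (P.e_off i e)
  exact ⟨h1, h2 ▸ h1⟩

theorem e_mem_H (i : ι) : P.e i ∈ P.H i i := ⟨P.e_mem i, in_e P i⟩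

theorem in_single {i j : ι} {q p : Pt} (hp : P.vt p = i) (hq : P.vt q = j) (c : F) :
    P.In i j (Matrix.single q p c) := fun q' p' h => by
  by_cases e : q = q' ∧ p = p'
  · exact ⟨e.2 ▸ hp, e.1 ▸ hq⟩
  · exact (h (Matrix.single_apply_of_ne _ _ _ _ _ e)).elim

theorem blk_of_in {i j : ι} {b : Matrix Pt Pt F} (hb : P.In i j b) : P.blk i j b = b := by
  ext q p
  by_cases e : P.vt p = i ∧ P.vt q = j
  · exact P.blk_pos b e.1 e.2
  · rw [P.blk_neg b e]
    by_contra h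
    exact e (hb q p (Ne.symm h))

theorem blk_of_ne {i j i' j' : ι} {b : Matrix Pt Pt F} (hb : P.In i' j' b)
    (h : ¬ (i = i' ∧ j = j')) : P.blk i j b = 0 := by
  ext q p
  by_cases e : P.vt p = i ∧ P.vt q = j
  · rw [P.blk_pos b e.1 e.2]
    by_contra h'
    have := hb q p h'
    exact h ⟨e.1.symm.trans this.1, e.2.symm.trans this.2⟩
  · exact P.blk_neg b e

theorem blk_add (i j : ι) (a b : Matrix Pt Pt F) :
    P.blk i j (a + b) = P.blk i j a + P.blk i j b := by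
  simp only [Prob.blk_eq, mul_add, add_mul]

theorem sum_e [Fintype ι] : ∑ i, P.e i = 1 := by
  ext q p
  rw [Matrix.sum_apply, Finset.sum_eq_single (P.vt p) (fun i _ hi => P.e_neg q (Ne.symm hi))
    (by simp), P.e_pos q rfl]

theorem e_mul_e (i : ι) : P.e i * P.e i = P.e i := by
  have h := P.blk_eq i i 1
  rw [mul_one] at h
  rw [← h]
  ext q p
  by_cases e : P.vt p = i ∧ P.vt q = i
  · rw [P.blk_pos _ e.1 e.2, P.e_pos q e.1]
  · rw [P.blk_neg _ e]
    by_contra h'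
    exact e (in_e P i q p (Ne.symm h'))

theorem mul_e {i j : ι} {b : Matrix Pt Pt F} (hb : P.In i j b) : b * P.e i = b := by
  conv_lhs => rw [← blk_of_in P hb]
  rw [P.blk_eq, mul_assoc, e_mul_e, ← P.blk_eq, blk_of_in P hb]

theorem blk_mul [Fintype ι] (i l : ι) (a b : Matrix Pt Pt F) :
    P.blk i l (a * b) = ∑ j, P.blk j l a * P.blk i j b := by
  have h : ∀ j, P.blk j l a * P.blk i j b = P.e l * a * P.e j * (b * P.e i) := fun j => by
    rw [P.blk_eq, P.blk_eq]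
    calc P.e l * a * P.e j * (P.e j * b * P.e i)
        = P.e l * a * (P.e j * P.e j) * (b * P.e i) := by simp only [mul_assoc]
      _ = _ := by rw [e_mul_e]
  simp only [h]
  rw [← Finset.sum_mul, ← Finset.mul_sum, sum_e, P.blk_eq]
  simp only [mul_assoc, mul_one]

theorem blk_alg_ne {i j : ι} (h : i ≠ j) (c : k) :
    P.blk i j (algebraMap k (Matrix Pt Pt F) c) = 0 := by
  ext q p
  by_cases e : P.vt p = i ∧ P.vt q = j
  · rw [P.blk_pos _ e.1 e.2]
    have : q ≠ p := fun e' => h (e.1.symm.trans (e' ▸ e.2))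
    simp [Matrix.algebraMap_matrix_apply, this]
  · exact P.blk_neg _ e

/-- A problem from a family of conditions on blocks. -/
theorem build [Fintype ι] (W : ι → ι → Matrix Pt Pt F → Prop) (h0 : ∀ i j, W i j 0)
    (hadd : ∀ i j a b, W i j a → W i j b → W i j (a + b))
    (hmul : ∀ i j l a b, W j l a → W i j b → W i l (a * b))
    (hH : ∀ i j, ∀ b ∈ P.H i j, W i j b) :
    ∃ P' : Prob k F Pt ι Unit, P'.vt = P.vt ∧ ∀ b, b ∈ P'.B ↔ ∀ i j, W i j (P.blk i j b) := by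
  refine ⟨⟨P.vt, P.pk,
    { carrier := {b | ∀ i j, W i j (P.blk i j b)}
      mul_mem' := fun {a b} ha hb i l => ?_
      add_mem' := fun {a b} ha hb i j => ?_
      algebraMap_mem' := fun c i j => hH i j _ (P.blk_mem (P.B.algebraMap_mem c) i j) },
    fun m i j => hH i j _ (P.blk_mem (P.idem m) i j), fun _ _ _ _ _ => rfl⟩, rfl, fun b => Iff.rfl⟩
  · rw [blk_mul]
    exact Finset.sum_induction _ (W i l) (hadd i l) (h0 i l)
      fun j _ => hmul i j l _ _ (ha j l) (hb i j)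
  · rw [blk_add]
    exact hadd i j _ _ (ha i j) (hb i j)

variable {P} {val : Set ι} {ht : Pt → ℕ}

/-- Products through a simple vertex do not vanish. -/
theorem ne_bot {i j l : ι} (hc : ColSimple P j) (h1 : P.H i j ≠ ⊥) (h2 : P.H j l ≠ ⊥) :
    P.H i l ≠ ⊥ := by
  intro h
  obtain ⟨x, hx, hx0⟩ := (Submodule.ne_bot_iff _).1 h1
  obtain ⟨y, hy, hy0⟩ := (Submodule.ne_bot_iff _).1 h2
  let W : Submodule F (Pt → F) :=
    { carrier := {v | (∀ p, P.vt p ≠ j → v p = 0) ∧ ∀ b ∈ P.H j j, (y * b).mulVec v = 0}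
      add_mem' := fun {u v} hu hv => ⟨fun p hp => by simp [hu.1 p hp, hv.1 p hp],
        fun b hb => by rw [Matrix.mulVec_add, hu.2 b hb, hv.2 b hb, add_zero]⟩
      zero_mem' := ⟨fun _ _ => rfl, fun b _ => Matrix.mulVec_zero _⟩
      smul_mem' := fun c v hv => ⟨fun p hp => by simp [hv.1 p hp],
        fun b hb => by rw [Matrix.mulVec_smul, hv.2 b hb, smul_zero]⟩ }
  have hs : ∀ b ∈ P.H j j, ∀ v ∈ W, b.mulVec v ∈ W := by
    intro b hb v hv
    refine ⟨fun p hp => ?_, fun b' hb' => ?_⟩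
    · refine Finset.sum_eq_zero fun r _ => ?_
      have : b p r = 0 := by
        by_contra e
        exact hp (hb.2 p r e).2
      simp [this]
    · rw [Matrix.mulVec_mulVec, mul_assoc]
      exact hv.2 _ ⟨P.B.mul_mem hb'.1 hb.1, in_mul P hb'.2 hb.2⟩
  rcases hc W (fun v hv => hv.1) hs with hW | hW
  · apply hx0
    ext q p
    have hv : (fun r => x r p) ∈ W := by
      refine ⟨fun r hr => ?_, fun b hb => ?_⟩
      · by_contra e
        exact hr (hx.2 r p e).2
      · have hz : y * b * x ∈ P.H i l :=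
          ⟨P.B.mul_mem (P.B.mul_mem hy.1 hb.1) hx.1, in_mul P (in_mul P hy.2 hb.2) hx.2⟩
        rw [h, Submodule.mem_bot] at hz
        ext r
        have := congrFun (congrFun hz r) p
        rw [Matrix.mul_apply] at this
        exact this
    rw [hW, Submodule.mem_bot] at hv
    exact congrFun hv q
  · apply hy0
    ext q p
    by_contra e
    have hp := (hy.2 q p e).1
    have hv := hW (Pi.single p 1) fun r hr =>
      Pi.single_eq_of_ne (fun e' : r = p => hr (e' ▸ hp)) _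
    have := congrFun (hv.2 _ (e_mem_H P j)) q
    rw [mul_e P hy.2, Matrix.mulVec_single_one] at this
    exact e this

/-- A full block is spanned by the translates of one nonzero element. -/
theorem full_ind {m i : ι} {g : Matrix Pt Pt F} (hg : P.In m i g) (hg0 : g ≠ 0)
    (Q : Matrix Pt Pt F → Prop) (h0 : Q 0) (hadd : ∀ a b, Q a → Q b → Q (a + b))
    (hq : ∀ c₁ c₂, P.In i i c₁ → P.In m m c₂ → Q (c₁ * g * c₂)) {c : Matrix Pt Pt F}
    (hc : P.In m i c) : Q c := by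
  obtain ⟨q₀, p₀, h₀⟩ : ∃ q₀ p₀, g q₀ p₀ ≠ 0 := by
    by_contra h
    push Not at h
    exact hg0 (Matrix.ext h)
  rw [Matrix.matrix_eq_sum_single c]
  refine Finset.sum_induction _ Q hadd h0 fun q _ => Finset.sum_induction _ Q hadd h0 fun p _ => ?_
  by_cases e : c q p = 0
  · rw [e, Matrix.single_zero]; exact h0
  · have h := hq (Matrix.single q q₀ (c q p * (g q₀ p₀)⁻¹)) (Matrix.single p₀ p 1)
      (in_single P (hg q₀ p₀ h₀).2 (hc q p e).2 _) (in_single P (hc q p e).1 (hg q₀ p₀ h₀).1 _)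
    rw [Matrix.single_mul_mul_single, mul_one, inv_mul_cancel_right₀ h₀] at h
    exact h

variable (P val) in
/-- The blocks of the largest enlargement. -/
def Fat (m i : ι) (c : Matrix Pt Pt F) : Prop := P.In m i c ∧ (c ∈ P.B ∨
  (m = i ∧ i ∉ val ∧ c ∈ Submodule.span F (P.H i i : Set (Matrix Pt Pt F))) ∨
  (m ∈ val ∧ i ∈ val ∧ P.H m i ≠ ⊥))

theorem absorb_r (hG : Good P val) {i j m : ι} (hij : i ≠ j) (hv : ¬ (i ∈ val ∧ j ∈ val))
    {h c : Matrix Pt Pt F} (hh : h ∈ P.H i j) (hc : Fat P val m i c) : h * c ∈ P.B := by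
  obtain ⟨hin, hc | ⟨rfl, hi, hc⟩ | ⟨hm, hi, hc⟩⟩ := hc
  · exact P.B.mul_mem hh.1 hc
  · have : h * c ∈ P.H m j := by
      clear hin
      induction hc using Submodule.span_induction with
      | mem x hx => exact ⟨P.B.mul_mem hh.1 hx.1, in_mul P hh.2 hx.2⟩
      | zero => rw [mul_zero]; exact Submodule.zero_mem _
      | add x y _ _ hx hy => rw [mul_add]; exact Submodule.add_mem _ hx hy
      | smul a x _ hx =>
        rw [Matrix.mul_smul]
        exact ⟨hG.smul m j hij hv a _ hx, in_smul P a hx.2⟩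
    exact this.1
  · obtain ⟨g, hg, hg0⟩ := (Submodule.ne_bot_iff _).1 hc
    have hj : j ∉ val := fun e => hv ⟨hi, e⟩
    refine full_ind hg.2 hg0 (fun c => h * c ∈ P.B) (by simp)
      (fun a b ha hb => by rw [mul_add]; exact P.B.add_mem ha hb) (fun c₁ c₂ h₁ h₂ => ?_) hin
    have e1 : h * c₁ ∈ P.B := hG.fullc i hi j hj h hh c₁ h₁
    have e2 : h * c₁ * g ∈ P.H m j := ⟨P.B.mul_mem e1 hg.1, in_mul P (in_mul P hh.2 h₁) hg.2⟩
    have e3 := hG.fullc m hm j hj _ e2 c₂ h₂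
    simpa only [mul_assoc] using e3

theorem absorb_l (hG : Good P val) {i j l : ι} (hij : i ≠ j) (hv : ¬ (i ∈ val ∧ j ∈ val))
    {h c : Matrix Pt Pt F} (hh : h ∈ P.H i j) (hc : Fat P val j l c) : c * h ∈ P.B := by
  obtain ⟨hin, hc | ⟨rfl, hi, hc⟩ | ⟨hj, hl, hc⟩⟩ := hc
  · exact P.B.mul_mem hc hh.1
  · have : c * h ∈ P.H i j := by
      clear hin
      induction hc using Submodule.span_induction with
      | mem x hx => exact ⟨P.B.mul_mem hx.1 hh.1, in_mul P hx.2 hh.2⟩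
      | zero => rw [zero_mul]; exact Submodule.zero_mem _
      | add x y _ _ hx hy => rw [add_mul]; exact Submodule.add_mem _ hx hy
      | smul a x _ hx =>
        rw [Matrix.smul_mul]
        exact ⟨hG.smul i j hij hv a _ hx, in_smul P a hx.2⟩
    exact this.1
  · obtain ⟨g, hg, hg0⟩ := (Submodule.ne_bot_iff _).1 hc
    have hi : i ∉ val := fun e => hv ⟨e, hj⟩
    refine full_ind hg.2 hg0 (fun c => c * h ∈ P.B) (by simp)
      (fun a b ha hb => by rw [add_mul]; exact P.B.add_mem ha hb) (fun c₁ c₂ h₁ h₂ => ?_) hin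
    have e1 : c₂ * h ∈ P.B := hG.fullr j hj i hi h hh c₂ h₂
    have e2 : g * (c₂ * h) ∈ P.H i l := ⟨P.B.mul_mem hg.1 e1, in_mul P hg.2 (in_mul P h₂ hh.2)⟩
    have e3 := hG.fullr l hl i hi _ e2 c₁ h₁
    simpa only [mul_assoc] using e3

variable (P val) in
/-- The blocks of the three enlargements. -/
def Wt (a b : Prop) (i j : ι) (x : Matrix Pt Pt F) : Prop := P.In i j x ∧
  (b ∧ i ∈ val ∧ j ∈ val → P.H i j = ⊥ → x = 0) ∧
  (a ∧ i = j ∧ i ∉ val → x ∈ Submodule.span F (P.H i i : Set (Matrix Pt Pt F))) ∧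
  (¬ (b ∧ i ∈ val ∧ j ∈ val) → ¬ (a ∧ i = j ∧ i ∉ val) → x ∈ P.B)

theorem Wt.fat {a b : Prop} {i j : ι} {x : Matrix Pt Pt F} (h : Wt P val a b i j x) :
    Fat P val i j x := by
  refine ⟨h.1, ?_⟩
  by_cases e1 : b ∧ i ∈ val ∧ j ∈ val
  · by_cases e : P.H i j = ⊥
    · left; rw [h.2.1 e1 e]; exact P.B.zero_mem
    · exact Or.inr (Or.inr ⟨e1.2.1, e1.2.2, e⟩)
  · by_cases e2 : a ∧ i = j ∧ i ∉ val
    · obtain ⟨ha, rfl, hi⟩ := e2
      exact Or.inr (Or.inl ⟨rfl, hi, h.2.2.1 ⟨ha, rfl, hi⟩⟩)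
    · exact Or.inl (h.2.2.2 e1 e2)

theorem Wt.mem {a b : Prop} {i j : ι} {x : Matrix Pt Pt F} (h : Wt P val a b i j x) (hij : i ≠ j)
    (hv : ¬ (i ∈ val ∧ j ∈ val)) : x ∈ P.H i j :=
  ⟨h.2.2.2 (fun e => hv e.2) fun e => hij e.2.1, h.1⟩

theorem Wt.of_H (a b : Prop) (i j : ι) (x : Matrix Pt Pt F) (h : x ∈ P.H i j) :
    Wt P val a b i j x := by
  refine ⟨h.2, fun _ e => ?_, fun e => ?_, fun _ _ => h.1⟩
  · rwa [e, Submodule.mem_bot] at h
  · obtain ⟨-, rfl, -⟩ := e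
    exact Submodule.subset_span h

theorem Wt.add {a b : Prop} (i j : ι) (x y : Matrix Pt Pt F) (hx : Wt P val a b i j x)
    (hy : Wt P val a b i j y) : Wt P val a b i j (x + y) :=
  ⟨in_add P hx.1 hy.1, fun e e' => by rw [hx.2.1 e e', hy.2.1 e e', add_zero],
    fun e => Submodule.add_mem _ (hx.2.2.1 e) (hy.2.2.1 e),
    fun e e' => P.B.add_mem (hx.2.2.2 e e') (hy.2.2.2 e e')⟩

theorem span_mul {i : ι} {x y : Matrix Pt Pt F}
    (hx : x ∈ Submodule.span F (P.H i i : Set (Matrix Pt Pt F)))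
    (hy : y ∈ Submodule.span F (P.H i i : Set (Matrix Pt Pt F))) :
    x * y ∈ Submodule.span F (P.H i i : Set (Matrix Pt Pt F)) := by
  induction hx using Submodule.span_induction with
  | mem x hx =>
    induction hy using Submodule.span_induction with
    | mem y hy => exact Submodule.subset_span ⟨P.B.mul_mem hx.1 hy.1, in_mul P hx.2 hy.2⟩
    | zero => rw [mul_zero]; exact Submodule.zero_mem _
    | add y z _ _ hy hz => rw [mul_add]; exact Submodule.add_mem _ hy hz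
    | smul c y _ hy => rw [Matrix.mul_smul]; exact Submodule.smul_mem _ _ hy
  | zero => rw [zero_mul]; exact Submodule.zero_mem _
  | add x z _ _ hx hz => rw [add_mul]; exact Submodule.add_mem _ hx hz
  | smul c x _ hx => rw [Matrix.smul_mul]; exact Submodule.smul_mem _ _ hx

theorem Wt.mul (hF : Flag P val ht) (hG : Good P val) {a b : Prop} (i j l : ι)
    (y x : Matrix Pt Pt F) (hy : Wt P val a b j l y) (hx : Wt P val a b i j x) :
    Wt P val a b i l (y * x) := by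
  have hin := in_mul P hy.1 hx.1
  refine ⟨hin, fun ⟨hb, hi, hl⟩ e => ?_, fun ⟨ha, hil, hi⟩ => ?_, fun e1 e2 => ?_⟩
  · by_cases hj : j ∈ val
    · by_cases e1 : P.H i j = ⊥
      · rw [hx.2.1 ⟨hb, hi, hj⟩ e1, mul_zero]
      · by_cases e2 : P.H j l = ⊥
        · rw [hy.2.1 ⟨hb, hj, hl⟩ e2, zero_mul]
        · exact (ne_bot (hF.col j hj) e1 e2 e).elim
    · have h1 := hx.mem (fun e => hj (e ▸ hi)) fun e => hj e.2
      have h2 := hy.mem (fun e => hj (e ▸ hl)) fun e => hj e.1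
      have h3 : y * x ∈ P.H i l := ⟨P.B.mul_mem h2.1 h1.1, hin⟩
      rwa [e, Submodule.mem_bot] at h3
  · subst hil
    by_cases hj : i = j
    · subst hj
      exact span_mul (hy.2.2.1 ⟨ha, rfl, hi⟩) (hx.2.2.1 ⟨ha, rfl, hi⟩)
    · have h1 := hx.mem hj fun e => hi e.1
      have h2 := hy.mem (Ne.symm hj) fun e => hi e.2
      exact Submodule.subset_span ⟨P.B.mul_mem h2.1 h1.1, hin⟩
  · by_cases x1 : b ∧ i ∈ val ∧ j ∈ val
    · have hl : l ∉ val := fun e => e1 ⟨x1.1, x1.2.1, e⟩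
      have hjl : j ≠ l := fun e => hl (e ▸ x1.2.2)
      exact absorb_r hG hjl (fun e => hl e.2) (hy.mem hjl fun e => hl e.2) hx.fat
    by_cases x2 : a ∧ i = j ∧ i ∉ val
    · obtain ⟨ha, rfl, hi⟩ := x2
      have hjl : i ≠ l := fun e => e2 ⟨ha, e, hi⟩
      exact absorb_r hG hjl (fun e => hi e.1) (hy.mem hjl fun e => hi e.1) hx.fat
    have hxH : x ∈ P.H i j := ⟨hx.2.2.2 x1 x2, hx.1⟩
    by_cases y1 : b ∧ j ∈ val ∧ l ∈ val
    · have hi : i ∉ val := fun e => e1 ⟨y1.1, e, y1.2.2⟩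
      exact absorb_l hG (fun e : i = j => hi (e ▸ y1.2.1)) (fun e => hi e.1) hxH hy.fat
    by_cases y2 : a ∧ j = l ∧ j ∉ val
    · obtain ⟨ha, rfl, hj⟩ := y2
      exact absorb_l hG (fun e => e2 ⟨ha, e, e ▸ hj⟩) (fun e => hj e.2) hxH hy.fat
    exact P.B.mul_mem (hy.2.2.2 y1 y2) hxH.1

theorem exists_Wt [Fintype ι] (hF : Flag P val ht) (hG : Good P val) (a b : Prop) :
    ∃ P' : Prob k F Pt ι Unit, P'.vt = P.vt ∧
      ∀ x, x ∈ P'.B ↔ ∀ i j, Wt P val a b i j (P.blk i j x) :=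
  build P (Wt P val a b) (fun i j => Wt.of_H a b i j 0 (Submodule.zero_mem _)) Wt.add
    (Wt.mul hF hG) (Wt.of_H a b)

theorem fat_iff (i j : ι) (x : Matrix Pt Pt F) : Wt P val True True i j (P.blk i j x) ↔
    (i ∈ val ∧ j ∈ val → P.H i j = ⊥ → P.blk i j x = 0) ∧
    (i = j ∧ i ∉ val → P.blk i j x ∈ Submodule.span F (P.H i i : Set (Matrix Pt Pt F))) ∧
    (i ≠ j → ¬ (i ∈ val ∧ j ∈ val) → P.blk i j x ∈ P.B) := by
  constructor
  · intro h
    exact ⟨fun e => h.2.1 ⟨trivial, e⟩, fun e => h.2.2.1 ⟨trivial, e⟩,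
      fun e e' => (h.mem e e').1⟩
  · intro h
    refine ⟨in_blk P i j x, fun e => h.1 e.2, fun e => h.2.1 e.2, fun e e' => h.2.2 ?_ ?_⟩
    · rintro rfl
      by_cases hi : i ∈ val
      · exact e ⟨trivial, hi, hi⟩
      · exact e' ⟨trivial, rfl, hi⟩
    · exact fun h' => e ⟨trivial, h'⟩

end Enl1A

open Enl1A in
theorem enl1 : SEnl1 := by
  intro k F _ _ _ _ Pt ι _ _ _ P val ht hF hG
  refine ⟨?_, ?_, ?_, fun Pf hf => ⟨fun b hb => ?_, fun i j hij hv b hb c hc => ?_⟩⟩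
  · obtain ⟨P', h1, h2⟩ := exists_Wt hF hG True False
    refine ⟨P', h1, fun x => (h2 x).trans (forall_congr' fun i => forall_congr' fun j => ?_)⟩
    exact ⟨fun h => ⟨fun e => h.2.2.1 ⟨trivial, e⟩, fun e => h.2.2.2 (fun e' => e'.1) fun e' => e e'.2⟩,
      fun h => ⟨in_blk P i j x, fun e => e.1.elim, fun e => h.1 e.2,
        fun _ e => h.2 fun e' => e ⟨trivial, e'⟩⟩⟩
  · obtain ⟨P', h1, h2⟩ := exists_Wt hF hG False True
    refine ⟨P', h1, fun x => (h2 x).trans (forall_congr' fun i => forall_congr' fun j => ?_)⟩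
    exact ⟨fun h => ⟨fun e => h.2.1 ⟨trivial, e⟩, fun e => h.2.2.2 (fun e' => e e'.2) fun e' => e'.1⟩,
      fun h => ⟨in_blk P i j x, fun e => h.1 e.2, fun e => e.1.elim,
        fun e _ => h.2 fun e' => e ⟨trivial, e'⟩⟩⟩
  · obtain ⟨P', h1, h2⟩ := exists_Wt hF hG True True
    exact ⟨P', h1, fun x => (h2 x).trans
      (forall_congr' fun i => forall_congr' fun j => fat_iff i j x)⟩
  · exact (hf.2 b).2 fun i j => (fat_iff i j b).1 (Wt.of_H _ _ i j _ (P.blk_mem hb i j))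
  · have h : b * c = ∑ m, b * P.blk m i c := by
      simp only [P.blk_eq, ← mul_assoc, mul_e P hb.2]
      rw [← Finset.mul_sum, sum_e, mul_one]
    rw [h]
    exact Subalgebra.sum_mem _ fun m _ =>
      absorb_r hG hij hv hb ((fat_iff m i c).2 ((hf.2 c).1 hc m i)).fat

end Pool.Agent.MP_bd94e8_al.H89
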